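import Pool.Graph.R_pool_sql_team_39128cda.Results.MP_dace02_an.No

set_option autoImplicit false

namespace Pool.Agent.KS6_95.BD

open Filter Topology Finset Real Pool.Agent.Results.MP_dace02_an.No

/-- `g` is a continuous `1`-periodic real function with Fourier expansion `∑ C_k e^{2πikx}`. -/
def Expands (g : ℝ → ℝ) (C : ℤ → ℂ) : Prop :=
  Continuous g ∧ Function.Periodic g 1 ∧ (∀ k, C (-k) = starRingEnd ℂ (C k)) ∧
    ∀ x : ℝ, HasSum (fun k : ℤ => C k * Complex.exp (2 * π * Complex.I * k * x)) (g x)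

theorem lower (d : ℝ) (hd : 0 < d) (hd1 : d ≤ 1) (s : ℝ) (hs : d / 2 < s) (hs2 : s ≤ 2) :
    ∃ (g : ℝ → ℝ) (C : ℤ → ℂ), Expands g C ∧ CondH d C ∧ CondNV d C ∧
      ((2 - s : ℝ) : EReal) ≤ upperDim (G d g) := by
  have i1 : Function.Injective fun j : ℕ => 2 ^ j := Nat.pow_right_injective (by norm_num)
  set ρ : ℝ := (2 : ℝ) ^ (-s) with hρ
  have hρ0 : 0 < ρ := by positivity
  set c : ℕ → ℝ := Function.extend (fun j : ℕ => 2 ^ j) (fun j => ρ ^ j) 0 with hc
  have c1 : ∀ j, c (2 ^ j) = ρ ^ j := fun j => i1.extend_apply _ _ j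
  have c2 : ∀ m ∉ Set.range fun j : ℕ => 2 ^ j, c m = 0 := fun m hm =>
    Function.extend_apply' _ _ _ hm
  have c0 : ∀ m, 0 ≤ c m := fun m => by
    by_cases h : m ∈ Set.range fun j : ℕ => 2 ^ j
    · obtain ⟨j, rfl⟩ := h
      exact (c1 j).ge.trans' (by positivity)
    · exact (c2 m h).ge
  have c3 : c 0 = 0 := c2 0 fun ⟨j, h⟩ => (pow_pos (by norm_num) j).ne' h
  set s0 : ℝ := (d / 2 + s) / 2 with hs0
  have s1 : Summable fun m : ℕ => c m * (m : ℝ) ^ s0 := by
    have hr : ρ * (2 : ℝ) ^ s0 < 1 := by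
      rw [hρ, ← rpow_add two_pos]
      apply rpow_lt_one_of_one_lt_of_neg (by norm_num)
      rw [hs0]; linarith
    refine (i1.summable_iff fun m hm => by simp [c2 m hm]).1
      ((summable_geometric_of_lt_one (r := ρ * (2 : ℝ) ^ s0) (by positivity) hr).congr fun j => ?_)
    simp only [Function.comp, c1]
    push_cast
    rw [← rpow_pow_comm (by norm_num), ← mul_pow]
  have s2 : ∀ e : ℝ, e ≤ s0 → Summable fun m : ℕ => c m * (m : ℝ) ^ e := fun e he =>
    s1.of_nonneg_of_le (fun m => mul_nonneg (c0 m) (by positivity)) fun m => by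
      rcases m.eq_zero_or_pos with rfl | h
      · simp [c3]
      · exact mul_le_mul_of_nonneg_left
          (rpow_le_rpow_of_exponent_le (by exact_mod_cast h) he) (c0 m)
  have s3 : Summable c := by simpa using s2 0 (by rw [hs0]; linarith)
  have b1 : ∀ (m : ℕ) (x : ℝ), ‖c m * cos (2 * π * m * x)‖ ≤ c m := fun m x => by
    rw [norm_mul, norm_of_nonneg (c0 m)]
    exact mul_le_of_le_one_right (c0 m) (abs_cos_le_one _)
  set g : ℝ → ℝ := fun x => ∑' m : ℕ, c m * cos (2 * π * m * x) with hg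
  have g1 : ∀ x, HasSum (fun m : ℕ => c m * cos (2 * π * m * x)) (g x) := fun x =>
    (s3.of_norm_bounded fun m => b1 m x).hasSum
  have g2 : Continuous g := continuous_tsum (fun m => by fun_prop) s3 b1
  have s4 : Summable fun n : ℕ => (∑' m, c m) / (n + 1 : ℝ) ^ (1 + d) := by
    simpa [div_eq_mul_inv] using ((summable_nat_add_iff 1).2
      (summable_nat_rpow_inv.2 (show (1 : ℝ) < 1 + d by linarith))).mul_left (∑' m, c m)
  have b2 : ∀ (n : ℕ) (x : ℝ), ‖g ((n + 1) ^ 2 * x) / (n + 1 : ℝ) ^ (1 + d)‖ ≤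
      (∑' m, c m) / (n + 1 : ℝ) ^ (1 + d) := fun n x => by
    rw [norm_div, norm_of_nonneg (by positivity : 0 ≤ (n + 1 : ℝ) ^ (1 + d))]
    gcongr
    exact tsum_of_norm_bounded s3.hasSum fun m => b1 m _
  have G1 : ∀ x, HasSum (fun n : ℕ => g ((n + 1) ^ 2 * x) / (n + 1 : ℝ) ^ (1 + d)) (G d g x) :=
    fun x => (s4.of_norm_bounded fun n => b2 n x).hasSum
  have G2 : Continuous (G d g) :=
    continuous_tsum (fun n => (g2.comp (by fun_prop)).div_const _) s4 b2
  refine ⟨g, fun k => (c k.natAbs / 2 : ℝ), ⟨g2, fun x => ?_, fun k => ?_, fun x => ?_⟩,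
    ⟨2 * s0 - d, by rw [hs0]; linarith, ?_⟩, ⟨1, one_pos, squarefree_one, ?_⟩, ?_⟩
  · refine tsum_congr fun m => ?_
    rw [mul_add, mul_one, mul_comm (2 * π) m, cos_add_nat_mul_two_pi]
  · change ((c (-k).natAbs / 2 : ℝ) : ℂ) = _
    rw [Complex.conj_ofReal, Int.natAbs_neg]
  · have h1 : Summable fun k : ℤ => ((c k.natAbs / 2 : ℝ) : ℂ) *
        Complex.exp (2 * π * Complex.I * k * x) :=
      .of_norm (.of_nat_of_neg (by simpa [Complex.norm_exp, abs_of_nonneg (c0 _)] using s3.div_const 2)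
        (by simpa [Complex.norm_exp, abs_of_nonneg (c0 _)] using s3.div_const 2))
    have h2 := h1.hasSum.nat_add_neg
    simp only [Int.natAbs_zero, c3, zero_div, Complex.ofReal_zero, zero_mul, add_zero] at h2
    convert h1.hasSum
    refine (Complex.hasSum_ofReal.2 (g1 x)).unique ?_
    convert h2 using 2 with m
    simp only [Int.natAbs_natCast, Int.natAbs_neg]
    push_cast
    rw [Complex.cos, show 2 * π * m * x * Complex.I = 2 * π * Complex.I * m * x by ring,
      show -(2 * π * m * x) * Complex.I = 2 * π * Complex.I * -m * x by ring]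
    ring
  · refine ((summable_nat_add_iff 1).2 (s1.div_const 2)).congr fun k => ?_
    have : (k + 1 : ℤ).natAbs = k + 1 := by omega
    simp only [this, Complex.norm_real, norm_of_nonneg (div_nonneg (c0 _) two_pos.le)]
    rw [show (2 * s0 - d + d) / 2 = s0 by ring]
    push_cast
    ring
  · have h1 : ∀ m : ℕ, (((m : ℤ) + 1) ^ 2 * (1 : ℕ)).natAbs = (m + 1) ^ 2 := fun m => by
      zify
      simp
    simp only [h1, ← Complex.ofReal_mul, ← Complex.ofReal_tsum, Complex.ofReal_ne_zero]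
    refine (Summable.tsum_pos ?_ (fun m => mul_nonneg (div_nonneg (c0 _) two_pos.le)
      (by positivity)) 0 (by simpa using (c1 0).ge.trans_lt' (by simp))).ne'
    refine (((s2 (d / 2) (by rw [hs0]; linarith)).div_const 2).comp_injective
      (i := fun m => (m + 1) ^ 2) fun a b h => by simpa using h).congr fun m => ?_
    simp only [Function.comp]
    push_cast
    ring_nf
  · refine le_limsup_of_frequently_le (((tendsto_pow_atTop_atTop_of_one_lt
        (show 1 < 2 by norm_num)).const_mul_atTop' two_pos).frequently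
          (.of_forall fun J => EReal.coe_le_coe_iff.2 ?_))
    have hM : 0 < 2 ^ J := by positivity
    have hcM : c (2 ^ J) = ((2 ^ J : ℕ) : ℝ) ^ (-s) := by
      rw [c1, hρ]
      push_cast
      rw [rpow_pow_comm (by norm_num)]
    generalize hM' : 2 ^ J = M at hM hcM
    have h0 : (1 : ℝ) ≤ M := by exact_mod_cast hM
    have h1 : ∀ n : ℕ, HasSum (fun m : ℕ => c m * ∑ l ∈ range M,
        (cos (2 * π * (m * n ^ 2 : ℕ) * (2 * l / (2 * M))) -
          cos (2 * π * (m * n ^ 2 : ℕ) * ((2 * l + 1) / (2 * M)))))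
        (∑ l ∈ range M, (g (n ^ 2 * (2 * l / (2 * M))) - g (n ^ 2 * ((2 * l + 1) / (2 * M))))) :=
      fun n => by
        simpa [mul_sum, mul_sub, mul_assoc] using hasSum_sum (s := range M) fun l _ =>
          (g1 (n ^ 2 * (2 * l / (2 * M)))).sub (g1 (n ^ 2 * ((2 * l + 1) / (2 * M))))
    have h2 := le_hasSum (h1 1) M fun m _ => mul_nonneg (c0 m) (trig _ hM)
    have h3 := le_hasSum (hasSum_sum (s := range M) fun l _ => (G1 (2 * l / (2 * M))).sub
      (G1 ((2 * l + 1) / (2 * M)))) 0 fun n _ => by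
        simp only [← sub_div, ← sum_div]
        refine div_nonneg ?_ (by positivity)
        simpa using (h1 (n + 1)).nonneg fun m => mul_nonneg (c0 m) (trig _ hM)
    have h4 := count G2 hM
    rw [sum_congr rfl (g := fun _ => (2 : ℝ)) fun l _ => by
      rw [show 2 * π * (M * 1 ^ 2 : ℕ) * (2 * l / (2 * M)) = l * (2 * π) by push_cast; field_simp,
        show 2 * π * (M * 1 ^ 2 : ℕ) * ((2 * l + 1) / (2 * M)) = l * (2 * π) + π by
          push_cast; field_simp, cos_nat_mul_two_pi, cos_nat_mul_two_pi_add_pi]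
      norm_num] at h2
    simp only [Nat.cast_zero, zero_add, one_rpow, div_one, Nat.cast_one, sum_const, card_range,
      nsmul_eq_mul] at h2 h3
    have h5 : 2 * (M : ℝ) * (c M * (M * 2)) ≤ _ :=
      (mul_le_mul_of_nonneg_left (h2.trans h3) (by positivity)).trans h4
    have h7 : ((2 * M : ℕ) : ℝ) ^ (2 - s) ≤ ((squares (G d g) (2 * M)).ncard : ℝ) := by
      refine le_trans ?_ h5
      rw [hcM]
      push_cast
      rw [mul_rpow (by norm_num) (by linarith), rpow_sub (by linarith : (0 : ℝ) < M),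
        rpow_neg (by linarith)]
      have hp : (0 : ℝ) < (M : ℝ) ^ s := by positivity
      have h22 : (2 : ℝ) ^ (2 - s) ≤ 4 := by
        calc (2 : ℝ) ^ (2 - s) ≤ (2 : ℝ) ^ (2 : ℝ) :=
              rpow_le_rpow_of_exponent_le (by norm_num) (by linarith)
          _ = 4 := by norm_num
      have hM2 : (M : ℝ) ^ (2 : ℝ) = M * M := by norm_num [sq]
      rw [hM2]
      calc (2 : ℝ) ^ (2 - s) * (M * M / (M : ℝ) ^ s) ≤ 4 * (M * M / (M : ℝ) ^ s) := by gcongr
        _ = 2 * (M : ℝ) * (((M : ℝ) ^ s)⁻¹ * (M * 2)) := by field_simp; norm_num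
    have h8 := log_le_log (by positivity) h7
    rw [log_rpow (by positivity)] at h8
    rw [le_div_iff₀ (log_pos (by push_cast; linarith))]
    exact h8

end Pool.Agent.KS6_95.BD
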