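import Pool.Agent.KS6_95.BD.Low

set_option autoImplicit false

namespace Pool.Agent.KS6_95.BD

open Filter Topology Finset Real Pool.Agent.Results.MP_dace02_an.No

lemma min_rpow {z β : ℝ} (hz : 0 ≤ z) (h0 : 0 ≤ β) (h1 : β ≤ 1) : min 1 z ≤ z ^ β := by
  rcases le_total z 1 with h | h
  · rw [min_eq_right h]
    rcases hz.eq_or_lt with rfl | hz
    · rcases h0.eq_or_lt with rfl | h0
      · simp
      · rw [zero_rpow h0.ne']
    · calc z = z ^ (1 : ℝ) := (rpow_one z).symm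
        _ ≤ z ^ β := rpow_le_rpow_of_exponent_ge hz h h1
  · rw [min_eq_left h]
    exact one_le_rpow h h0

lemma exp_diff (k : ℤ) (x y : ℝ) {β : ℝ} (h0 : 0 ≤ β) (h1 : β ≤ 1) :
    ‖Complex.exp (2 * π * Complex.I * k * x) - Complex.exp (2 * π * Complex.I * k * y)‖ ≤
      4 * π * (|(k : ℝ)| ^ β * |x - y| ^ β) := by
  have e1 : ∀ x : ℝ, (2 * π * Complex.I * k * x : ℂ) = ((2 * π * k * x : ℝ) : ℂ) * Complex.I := by
    intro x; push_cast; ring
  rw [e1, e1]
  have hn : ∀ x : ℝ, ‖Complex.exp ((x : ℂ) * Complex.I)‖ = 1 := Complex.norm_exp_ofReal_mul_I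
  set u : ℝ := 2 * π * k * x
  set v : ℝ := 2 * π * k * y
  have a1 : ‖Complex.exp ((u : ℂ) * Complex.I) - Complex.exp ((v : ℂ) * Complex.I)‖ ≤ 2 := by
    refine (norm_sub_le _ _).trans ?_
    rw [hn, hn]; norm_num
  have a2 : ‖Complex.exp ((u : ℂ) * Complex.I) - Complex.exp ((v : ℂ) * Complex.I)‖ ≤ |u - v| := by
    have e2 : Complex.exp ((u : ℂ) * Complex.I) - Complex.exp ((v : ℂ) * Complex.I) =
        Complex.exp ((v : ℂ) * Complex.I) * (Complex.exp (Complex.I * ((u - v : ℝ) : ℂ)) - 1) := by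
      rw [mul_sub, mul_one, ← Complex.exp_add]
      congr 2
      push_cast
      ring
    rw [e2, norm_mul, hn, one_mul]
    exact Real.norm_exp_I_mul_ofReal_sub_one_le
  have a3 : ‖Complex.exp ((u : ℂ) * Complex.I) - Complex.exp ((v : ℂ) * Complex.I)‖ ≤
      2 * min 1 |u - v| := by
    rcases le_total 1 |u - v| with h | h
    · rw [min_eq_left h]; linarith
    · rw [min_eq_right h]; linarith [abs_nonneg (u - v)]
  refine a3.trans ?_
  have a4 := min_rpow (abs_nonneg (u - v)) h0 h1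
  have a5 : |u - v| = 2 * π * (|(k : ℝ)| * |x - y|) := by
    rw [show u - v = 2 * π * (k * (x - y)) by ring, abs_mul (2 * π), abs_mul (k : ℝ),
      abs_of_pos (by positivity : 0 < 2 * π)]
  rw [a5, mul_rpow (by positivity) (by positivity), mul_rpow (abs_nonneg _) (abs_nonneg _)] at a4
  have a6 : (2 * π) ^ β ≤ 2 * π := by
    calc (2 * π) ^ β ≤ (2 * π) ^ (1 : ℝ) := by
          apply rpow_le_rpow_of_exponent_le _ h1
          linarith [pi_gt_three]
      _ = 2 * π := rpow_one _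
  rw [a5]
  have a7 : 0 ≤ |(k : ℝ)| ^ β * |x - y| ^ β := by positivity
  nlinarith [mul_le_mul_of_nonneg_right a6 a7]

lemma g_holder {g : ℝ → ℝ} {C : ℤ → ℂ} (h : Expands g C) {β : ℝ} (h0 : 0 ≤ β) (h1 : β ≤ 1)
    (hs : Summable fun k : ℤ => ‖C k‖ * |(k : ℝ)| ^ β) (x y : ℝ) :
    |g x - g y| ≤ 4 * π * (∑' k : ℤ, ‖C k‖ * |(k : ℝ)| ^ β) * |x - y| ^ β := by
  have e1 := (h.2.2.2 x).sub (h.2.2.2 y)
  have e2 : HasSum (fun k : ℤ => ‖C k‖ * |(k : ℝ)| ^ β * (4 * π * |x - y| ^ β))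
      ((∑' k : ℤ, ‖C k‖ * |(k : ℝ)| ^ β) * (4 * π * |x - y| ^ β)) := hs.hasSum.mul_right _
  have e3 : ‖(g x : ℂ) - (g y : ℂ)‖ ≤ (∑' k : ℤ, ‖C k‖ * |(k : ℝ)| ^ β) * (4 * π * |x - y| ^ β) := by
    rw [← e1.tsum_eq]
    apply tsum_of_norm_bounded e2
    intro k
    rw [← mul_sub, norm_mul]
    have := mul_le_mul_of_nonneg_left (exp_diff k x y h0 h1) (norm_nonneg (C k))
    linarith
  rw [← Complex.ofReal_sub, Complex.norm_real, norm_eq_abs] at e3
  linarith

lemma G_holder {g : ℝ → ℝ} {C : ℤ → ℂ} {d : ℝ} (hd : 0 < d) (hd1 : d ≤ 1) (h : Expands g C)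
    (hH : CondH d C) {β : ℝ} (h0 : 0 ≤ β) (h1 : β < d / 2) :
    ∃ L : ℝ, 0 ≤ L ∧ ∀ x y, |G d g x - G d g y| ≤ L * |x - y| ^ β := by
  obtain ⟨e, he, hH⟩ := hH
  have hnat : Summable fun k : ℕ => ‖C (k + 1)‖ * (k + 1 : ℝ) ^ β := by
    refine hH.of_nonneg_of_le (fun k => by positivity) fun k => ?_
    apply mul_le_mul_of_nonneg_left _ (norm_nonneg _)
    exact rpow_le_rpow_of_exponent_le (by linarith [(Nat.cast_nonneg k : (0 : ℝ) ≤ k)]) (by linarith)
  have hnat' : Summable fun k : ℕ => ‖C k‖ * |((k : ℤ) : ℝ)| ^ β := by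
    rw [← summable_nat_add_iff 1]
    refine hnat.congr fun k => ?_
    push_cast
    rw [abs_of_nonneg (by positivity : (0 : ℝ) ≤ k + 1)]
  have hs : Summable fun k : ℤ => ‖C k‖ * |(k : ℝ)| ^ β := by
    apply Summable.of_nat_of_neg hnat'
    refine hnat'.congr fun k => ?_
    rw [h.2.2.1, RCLike.norm_conj]
    push_cast
    rw [abs_neg]
  set S := ∑' k : ℤ, ‖C k‖ * |(k : ℝ)| ^ β with hS
  have hS0 : 0 ≤ S := tsum_nonneg fun k => by positivity
  have hg := g_holder h h0 (by linarith) hs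
  rw [← hS] at hg
  -- the series
  have hz : Summable fun n : ℕ => (n + 1 : ℝ) ^ (2 * β) / (n + 1 : ℝ) ^ (1 + d) := by
    have := (summable_nat_add_iff 1).2
      (summable_nat_rpow_inv.2 (show (1 : ℝ) < 1 + d - 2 * β by linarith))
    refine this.congr fun n => ?_
    push_cast
    rw [← rpow_sub (by positivity), ← rpow_neg (by positivity)]
    congr 1
    ring
  obtain ⟨B, hB⟩ : ∃ B, ∀ x, |g x| ≤ B := by
    obtain ⟨B, hB⟩ := isCompact_Icc.exists_bound_of_continuousOn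
      (h.1.continuousOn (s := Set.Icc 0 1))
    refine ⟨B, fun x => ?_⟩
    have hp := h.2.1
    have : g x = g (Int.fract x) := by
      rw [Int.fract]
      have := hp.sub_int_mul_eq ⌊x⌋ (x := x)
      simpa using this.symm
    rw [this]
    exact hB _ ⟨Int.fract_nonneg x, (Int.fract_lt_one x).le⟩
  have hsum : ∀ x, Summable fun n : ℕ => g ((n + 1) ^ 2 * x) / (n + 1 : ℝ) ^ (1 + d) := by
    intro x
    have s4 : Summable fun n : ℕ => B / (n + 1 : ℝ) ^ (1 + d) := by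
      simpa [div_eq_mul_inv] using ((summable_nat_add_iff 1).2
        (summable_nat_rpow_inv.2 (show (1 : ℝ) < 1 + d by linarith))).mul_left B
    refine s4.of_norm_bounded fun n => ?_
    rw [norm_div, norm_of_nonneg (by positivity : 0 ≤ (n + 1 : ℝ) ^ (1 + d))]
    gcongr
    exact hB _
  refine ⟨4 * π * S * ∑' n : ℕ, (n + 1 : ℝ) ^ (2 * β) / (n + 1 : ℝ) ^ (1 + d), ?_, fun x y => ?_⟩
  · have : 0 ≤ ∑' n : ℕ, (n + 1 : ℝ) ^ (2 * β) / (n + 1 : ℝ) ^ (1 + d) :=
      tsum_nonneg fun n => by positivity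
    positivity
  · have e1 := (hsum x).hasSum.sub (hsum y).hasSum
    have e2 := hz.hasSum.mul_left (4 * π * S * |x - y| ^ β)
    have e3 : ‖G d g x - G d g y‖ ≤ (4 * π * S * |x - y| ^ β) *
        ∑' n : ℕ, (n + 1 : ℝ) ^ (2 * β) / (n + 1 : ℝ) ^ (1 + d) := by
      unfold G
      rw [← e1.tsum_eq]
      apply tsum_of_norm_bounded e2
      intro n
      rw [← sub_div, norm_div, norm_of_nonneg (by positivity : 0 ≤ (n + 1 : ℝ) ^ (1 + d)),
        ← mul_div_assoc]
      gcongr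
      rw [norm_eq_abs]
      refine (hg _ _).trans (le_of_eq ?_)
      rw [← mul_sub, abs_mul, abs_of_nonneg (by positivity : (0 : ℝ) ≤ ((n : ℝ) + 1) ^ 2),
        mul_rpow (by positivity) (abs_nonneg _)]
      have : (((n : ℝ) + 1) ^ 2) ^ β = ((n : ℝ) + 1) ^ (2 * β) := by
        rw [← rpow_natCast, ← rpow_mul (by positivity)]
        norm_num
      rw [this]
      ring
    rw [norm_eq_abs] at e3
    linarith

lemma squares_le {f : ℝ → ℝ} {L β : ℝ} (hL : 0 ≤ L) (hβ : 0 ≤ β) (hβ1 : β ≤ 1)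
    (hf : ∀ x y, |f x - f y| ≤ L * |x - y| ^ β) {N : ℕ} (hN : 0 < N) :
    ((squares f N).ncard : ℝ) ≤ (6 * L + 12) * (N : ℝ) ^ (2 - β) := by
  have h0 : (0 : ℝ) < N := by exact_mod_cast hN
  have h01 : (1 : ℝ) ≤ N := by exact_mod_cast hN
  set p : ℤ → ℝ := fun i => max 0 (min 1 (i / N : ℝ)) with hp
  set w : ℝ := L * (N : ℝ) ^ (1 - β) with hw
  have hw0 : 0 ≤ w := by positivity
  set J : ℤ → Finset ℤ := fun i => Icc ⌈N * f (p i) - w - 1⌉ ⌊N * f (p i) + w⌋ with hJ
  have hsub : squares f N ⊆ (((Icc (-1 : ℤ) N).sigma J).image fun q => ((q.1, q.2) : ℤ × ℤ) :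
      Finset (ℤ × ℤ)) := by
    rintro ⟨i, j⟩ ⟨x, hx, ⟨h2, h3⟩, h4, h5⟩
    have hpx : |x - p i| ≤ 1 / N := by
      rw [abs_le]
      have e : ((i : ℝ) + 1) / N = i / N + 1 / N := by ring
      rw [e] at h3
      have hp0 : 0 < 1 / (N : ℝ) := by positivity
      simp only [hp]
      constructor
      · rcases le_total (i / N : ℝ) 0 with h | h
        · rw [max_eq_left (by rw [min_eq_right (by linarith)]; exact h)]
          linarith [hx.1]
        · have : max 0 (min 1 (i / N : ℝ)) ≤ i / N := max_le h (min_le_right _ _)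
          linarith
      · rcases le_total (i / N : ℝ) 1 with h | h
        · have : (i / N : ℝ) ≤ max 0 (min 1 (i / N : ℝ)) := by
            rw [min_eq_right h]; exact le_max_right _ _
          linarith
        · rw [min_eq_left h, max_eq_right (by norm_num)]
          linarith [hx.2]
    have hfx : N * |f x - f (p i)| ≤ w := by
      calc N * |f x - f (p i)| ≤ N * (L * (1 / N) ^ β) := by
            gcongr
            exact (hf _ _).trans (by gcongr)
        _ = w := by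
            rw [hw, rpow_sub h0, rpow_one, div_rpow (by norm_num) h0.le, one_rpow]
            ring
    have hfx' : |N * f x - N * f (p i)| ≤ w := by
      rw [← mul_sub, abs_mul, abs_of_pos h0]; exact hfx
    rw [abs_le] at hfx'
    rw [div_le_iff₀ h0] at h2 h4
    rw [le_div_iff₀ h0] at h3 h5
    simp only [coe_image, Set.mem_image, mem_coe, mem_sigma, mem_Icc, hJ, Int.ceil_le,
      Int.le_floor]
    refine ⟨⟨i, j⟩, ⟨⟨?_, ?_⟩, ?_, ?_⟩, rfl⟩
    · exact_mod_cast (by nlinarith [mul_nonneg hx.1 h0.le] : (-1 : ℝ) ≤ i)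
    · exact_mod_cast (by nlinarith [hx.2] : (i : ℝ) ≤ N)
    · linarith
    · linarith
  have hcard : (squares f N).ncard ≤ ∑ i ∈ Icc (-1 : ℤ) N, (J i).card := by
    refine (Set.ncard_le_ncard hsub (Finset.finite_toSet _)).trans ?_
    rw [Set.ncard_coe_finset]
    exact card_image_le.trans (by rw [card_sigma])
  have hJc : ∀ i, ((J i).card : ℝ) ≤ 2 * w + 2 := by
    intro i
    simp only [hJ, Int.card_Icc]
    rcases le_total (⌊N * f (p i) + w⌋ + 1 - ⌈N * f (p i) - w - 1⌉) 0 with h | h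
    · rw [Int.toNat_of_nonpos h]
      push_cast; positivity
    · have e : (((⌊N * f (p i) + w⌋ + 1 - ⌈N * f (p i) - w - 1⌉).toNat : ℤ) : ℝ) =
          ((⌊N * f (p i) + w⌋ + 1 - ⌈N * f (p i) - w - 1⌉ : ℤ) : ℝ) := by
        rw [Int.toNat_of_nonneg h]
      rw [Int.cast_natCast] at e
      rw [e]
      push_cast
      linarith [Int.floor_le (N * f (p i) + w), Int.le_ceil (N * f (p i) - w - 1)]
  have h1 : ((squares f N).ncard : ℝ) ≤ (N + 2) * (2 * w + 2) := by
    calc ((squares f N).ncard : ℝ) ≤ ((∑ i ∈ Icc (-1 : ℤ) N, (J i).card : ℕ) : ℝ) := by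
          exact_mod_cast hcard
      _ = ∑ i ∈ Icc (-1 : ℤ) N, ((J i).card : ℝ) := by push_cast; rfl
      _ ≤ ∑ i ∈ Icc (-1 : ℤ) N, (2 * w + 2) := sum_le_sum fun i _ => hJc i
      _ = (N + 2) * (2 * w + 2) := by
          rw [sum_const, nsmul_eq_mul, Int.card_Icc]
          congr 1
          have : ((N : ℤ) + 1 - -1).toNat = N + 2 := by omega
          rw [this]; push_cast; ring
  refine h1.trans ?_
  have hP : (1 : ℝ) ≤ (N : ℝ) ^ (1 - β) := one_le_rpow h01 (by linarith)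
  have e : (N : ℝ) ^ (2 - β) = N * (N : ℝ) ^ (1 - β) := by
    rw [show 2 - β = 1 + (1 - β) by ring, rpow_add h0, rpow_one]
  rw [e, hw]
  set P := (N : ℝ) ^ (1 - β)
  have hLP : 0 ≤ L * P := by positivity
  calc (N + 2) * (2 * (L * P) + 2) ≤ (3 * N) * (2 * (L * P) + 4 * P) := by
        apply mul_le_mul _ _ (by positivity) (by positivity)
        · linarith
        · linarith
    _ = (6 * L + 12) * (N * P) := by ring

theorem upper {g : ℝ → ℝ} {C : ℤ → ℂ} {d : ℝ} (hd : 0 < d) (hd1 : d ≤ 1) (h : Expands g C)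
    (hH : CondH d C) : upperDim (G d g) ≤ ((2 - d / 2 : ℝ) : EReal) := by
  by_contra hlt
  push Not at hlt
  obtain ⟨v, hv1, hv2⟩ := EReal.lt_iff_exists_real_btwn.mp hlt
  rw [EReal.coe_lt_coe_iff] at hv1
  -- choose `β`
  obtain ⟨β, hb0, hb1, hb2⟩ : ∃ β : ℝ, 0 ≤ β ∧ β < d / 2 ∧ 2 - β < v := by
    refine ⟨max 0 ((d / 2 + (2 - v)) / 2), le_max_left _ _, ?_, ?_⟩
    · rw [max_lt_iff]; constructor <;> linarith
    · have := le_max_right 0 ((d / 2 + (2 - v)) / 2)
      linarith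
  obtain ⟨L, hL, hf⟩ := G_holder hd hd1 h hH hb0 hb1
  have key : upperDim (G d g) ≤ (v : EReal) := by
    unfold upperDim
    refine limsup_le_of_le (by isBoundedDefault) ?_
    have ht : Tendsto (fun N : ℕ => (N : ℝ) ^ (v - (2 - β))) atTop atTop :=
      (tendsto_rpow_atTop (by linarith)).comp tendsto_natCast_atTop_atTop
    filter_upwards [ht.eventually_ge_atTop (6 * L + 12), eventually_gt_atTop 1] with N hN1 hN2
    have hN0 : (1 : ℝ) < N := by exact_mod_cast hN2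
    have hlog : 0 < log N := log_pos hN0
    rw [EReal.coe_le_coe_iff, div_le_iff₀ hlog]
    have h1 := squares_le hL hb0 (by linarith) hf (by omega : 0 < N)
    rcases Nat.eq_zero_or_pos (squares (G d g) N).ncard with hz | hz
    · rw [hz]
      simp only [Nat.cast_zero, log_zero]
      have : 0 < v := by linarith
      positivity
    · have h2 : ((squares (G d g) N).ncard : ℝ) ≤ (N : ℝ) ^ v := by
        refine h1.trans ?_
        calc (6 * L + 12) * (N : ℝ) ^ (2 - β) ≤ (N : ℝ) ^ (v - (2 - β)) * (N : ℝ) ^ (2 - β) := by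
              gcongr
          _ = (N : ℝ) ^ v := by rw [← rpow_add (by linarith)]; ring_nf
      have h3 := log_le_log (by exact_mod_cast hz) h2
      rwa [log_rpow (by linarith)] at h3
  exact absurd (lt_of_lt_of_le hv2 key) (lt_irrefl _)

end Pool.Agent.KS6_95.BD
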